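import Mathlib
import Pool.Prelude.Def_F_458e953d
import Pool.Agent.Helper20.PP.Defs
import Pool.Agent.Helper20.PP.Main

set_option autoImplicit false

namespace Pool.Agent.Helper20.Withdrawn.PairsAndOptimalProofs

open N68a2faeb N793a5b8e Pool.Agent.Helper20.PP

/-- Complete languages for `NP ∩ coNP`, disjoint pairs of languages that are hard for
`NP ∩ coNP`, and p-optimal proof systems. -/
theorem result :
    -- a complete language exists iff some hard disjoint NP-pair has a union with a p-optimal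
    -- proof system
    ((∃ L, IsCompleteFor (NP ∩ coNP) L) ↔
      ∃ (B₁ B₀ : DecisionProblem) (h : List Bool → List Bool), B₁ ∈ NP ∧ B₀ ∈ NP ∧ Disj B₁ B₀ ∧
        HardPair B₁ B₀ ∧ IsPOptimalProofSystem (union B₁ B₀) h) ∧
    -- the same with disjoint coNP-pairs
    ((∃ L, IsCompleteFor (NP ∩ coNP) L) ↔
      ∃ (B₁ B₀ : DecisionProblem) (h : List Bool → List Bool), B₁ ∈ coNP ∧ B₀ ∈ coNP ∧
        Disj B₁ B₀ ∧ HardPair B₁ B₀ ∧ IsPOptimalProofSystem (union B₁ B₀) h) ∧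
    -- if an NP-complete language has a p-optimal proof system, hard disjoint NP-pairs suffice
    (HasPOptimal NP → ((∃ L, IsCompleteFor (NP ∩ coNP) L) ↔
      ∃ B₁ B₀ : DecisionProblem, B₁ ∈ NP ∧ B₀ ∈ NP ∧ Disj B₁ B₀ ∧ HardPair B₁ B₀)) ∧
    -- if a coNP-complete language has a p-optimal proof system, hard disjoint coNP-pairs suffice
    (HasPOptimal coNP → ((∃ L, IsCompleteFor (NP ∩ coNP) L) ↔
      ∃ B₁ B₀ : DecisionProblem, B₁ ∈ coNP ∧ B₀ ∈ coNP ∧ Disj B₁ B₀ ∧ HardPair B₁ B₀)) ∧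
    -- complete disjoint NP-pairs are hard for NP ∩ coNP
    (∀ B₁ B₀ : DecisionProblem, CompleteNPPair B₁ B₀ → HardPair B₁ B₀) ∧
    -- a complete total NP search problem gives a hard disjoint coNP-pair
    (∀ T : TFNPProblem, T.IsComplete →
      ∃ B₁ B₀ : DecisionProblem, B₁ ∈ coNP ∧ B₀ ∈ coNP ∧ Disj B₁ B₀ ∧ HardPair B₁ B₀) ∧
    -- hence the two implications
    ((¬ ∃ L, IsCompleteFor (NP ∩ coNP) L) →
      ((¬ ∃ B₁ B₀ : DecisionProblem, CompleteNPPair B₁ B₀) ∨ ¬ HasPOptimal NP) ∧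
      ((¬ ∃ T : TFNPProblem, T.IsComplete) ∨ ¬ HasPOptimal coNP)) := by
  refine ⟨complete_iff_NP, complete_iff_coNP, complete_iff_of_NP, complete_iff_of_coNP,
    fun B₁ B₀ h => hard_of_completeNPPair h, fun T hT => ?_, fun hQ => ⟨?_, ?_⟩⟩
  · obtain ⟨h1, h2, h3, h4⟩ := hardPair_of_TFNP hT
    exact ⟨_, _, h1, h2, h3, h4⟩
  · by_contra hcon
    push Not at hcon
    obtain ⟨⟨B₁, B₀, h⟩, hC⟩ := hcon
    exact hQ ((complete_iff_of_NP hC).2 ⟨B₁, B₀, h.1.1, h.1.2.1, h.1.2.2,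
      hard_of_completeNPPair h⟩)
  · by_contra hcon
    push Not at hcon
    obtain ⟨⟨T, hT⟩, hC⟩ := hcon
    obtain ⟨h1, h2, h3, h4⟩ := hardPair_of_TFNP hT
    exact hQ ((complete_iff_of_coNP hC).2 ⟨_, _, h1, h2, h3, h4⟩)

end Pool.Agent.Helper20.Withdrawn.PairsAndOptimalProofs
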