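import Pool.Agent.Helper20.RPFamilies

set_option autoImplicit false

namespace Pool.Agent.Results.MP_0d034c_co.TriangularStrips

open Pool.Agent.Helper20 SimpleGraph

/-- The Birkhoff-Lewis conjecture holds for all strips of the triangular lattice with an odd number
of rows, with an explicit lower bound: for all `k, m : ℕ` and every real `q ≥ 4` the chromatic
polynomial `p` of the strip with `2 k + 1` rows of `m + 1` vertices satisfies
`0 < q (q - 1) ^ m ((q - 1) ((q - 2) ^ 2 / (q - 1)) ^ m) ^ (2 k) ≤ p q`. -/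
theorem result (k m : ℕ) (p : Polynomial ℝ)
    (hp : IsChromaticPolynomial (triangularStrip (2 * k + 1) (m + 1)) p)
    (q : ℝ) (hq : 4 ≤ q) :
    0 < q * (q - 1) ^ m * ((q - 1) * ((q - 2) ^ 2 / (q - 1)) ^ m) ^ (2 * k) ∧
    q * (q - 1) ^ m * ((q - 1) * ((q - 2) ^ 2 / (q - 1)) ^ m) ^ (2 * k) ≤ p.eval q := by
  have h := triangular_strip k m p hp q hq
  rw [← pow_mul] at h
  refine ⟨?_, h⟩
  have hq1 : 0 < q - 1 := by linarith
  have hq0 : 0 < q := by linarith
  have hq3 : 0 < q - 2 := by linarith
  positivity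

end Pool.Agent.Results.MP_0d034c_co.TriangularStrips
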